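import Pool.Agent.H334R5.Ps.Stmts

set_option autoImplicit false

namespace Pool.Agent.H87R3.Ps

open Pool.Agent.H334R5.Ps

/-- polynomial functions modulo `P` -/
def IsPol (P d : ℕ) (f : ℕ → ℕ) : Prop :=
  ∃ g : Polynomial (ZMod P), g.natDegree ≤ d ∧ ∀ z : ℕ, ((f z : ℕ) : ZMod P) = g.eval (z : ZMod P)

theorem IsPol.mono {P d e : ℕ} {f : ℕ → ℕ} (h : IsPol P d f) (hde : d ≤ e) : IsPol P e f := by
  obtain ⟨g, h1, h2⟩ := h
  exact ⟨g, h1.trans hde, h2⟩

theorem isPol_const (P d c : ℕ) : IsPol P d (fun _ => c) :=
  ⟨Polynomial.C (c : ZMod P), by simp, fun z => by simp⟩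

theorem isPol_id (P : ℕ) : IsPol P 1 (fun z => z) :=
  ⟨Polynomial.X, Polynomial.natDegree_X_le, fun z => by simp⟩

theorem IsPol.mul {P d e : ℕ} {f h : ℕ → ℕ} (hf : IsPol P d f) (hh : IsPol P e h) :
    IsPol P (d + e) (fun z => f z * h z % P) := by
  obtain ⟨g, g1, g2⟩ := hf
  obtain ⟨k, k1, k2⟩ := hh
  refine ⟨g * k, Polynomial.natDegree_mul_le.trans (add_le_add g1 k1), fun z => ?_⟩
  rw [ZMod.natCast_mod, Nat.cast_mul, g2, k2, Polynomial.eval_mul]

theorem IsPol.lin {P d : ℕ} {f h f' h' : ℕ → ℕ} {a b : ℕ} (hf : IsPol P a f) (hh : IsPol P b h)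
    (hf' : IsPol P a f') (hh' : IsPol P b h') (hab : a + b ≤ d) :
    IsPol P d (fun z => (f z * h z + f' z * h' z) % P) := by
  obtain ⟨g, g1, g2⟩ := hf
  obtain ⟨k, k1, k2⟩ := hh
  obtain ⟨g', g1', g2'⟩ := hf'
  obtain ⟨k', k1', k2'⟩ := hh'
  refine ⟨g * k + g' * k', ?_, fun z => ?_⟩
  · refine (Polynomial.natDegree_add_le _ _).trans (max_le ?_ ?_)
    · exact (Polynomial.natDegree_mul_le.trans (add_le_add g1 k1)).trans hab
    · exact (Polynomial.natDegree_mul_le.trans (add_le_add g1' k1')).trans hab
  · rw [ZMod.natCast_mod]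
    push_cast
    rw [g2, k2, g2', k2']
    simp

theorem cast_cpl (P : ℕ) (hP : 0 < P) (x : ℕ) : ((cpl P x : ℕ) : ZMod P) = 1 - (x : ZMod P) := by
  unfold cpl
  rw [ZMod.natCast_mod, Nat.cast_add, Nat.cast_sub (Nat.mod_lt _ hP).le, ZMod.natCast_mod,
    ZMod.natCast_self]
  push_cast
  ring

theorem IsPol.cpl {P d : ℕ} (hP : 0 < P) {f : ℕ → ℕ} (hf : IsPol P d f) :
    IsPol P d (fun z => Pool.Agent.H334R5.Ps.cpl P (f z)) := by
  obtain ⟨g, g1, g2⟩ := hf
  refine ⟨1 - g, ?_, fun z => ?_⟩
  · refine (Polynomial.natDegree_sub_le _ _).trans (max_le (by simp) g1)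
  · rw [cast_cpl P hP, g2]
    simp

theorem getD_upd (a : List ℕ) (j v i : ℕ) :
    (upd a j v).getD i 0 = if i < a.length then (if i = j then v else a.getD i 0) else 0 := by
  unfold upd
  by_cases h : i < a.length
  · rw [if_pos h, List.getD_eq_getElem _ _ (by simpa using h)]
    simp
  · rw [if_neg h, List.getD_eq_default _ _ (by simpa using h)]

theorem length_upd (a : List ℕ) (j v : ℕ) : (upd a j v).length = a.length := by
  simp [upd]

theorem upd_upd_same (a : List ℕ) (j v w : ℕ) : upd (upd a j v) j w = upd a j w := by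
  unfold upd
  simp only [List.length_map, List.length_range]
  apply List.map_congr_left
  intro i hi
  rw [List.mem_range] at hi
  by_cases h : i = j
  · simp [h]
  · rw [if_neg h, if_neg h]
    have := getD_upd a j v i
    unfold upd at this
    rw [this, if_pos hi, if_neg h]

theorem upd_comm (a : List ℕ) (i j v w : ℕ) (hij : i ≠ j) :
    upd (upd a j v) i w = upd (upd a i w) j v := by
  unfold upd
  simp only [List.length_map, List.length_range]
  apply List.map_congr_left
  intro k hk
  rw [List.mem_range] at hk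
  have h1 := getD_upd a j v k
  have h2 := getD_upd a i w k
  unfold upd at h1 h2
  rw [h1, h2, if_pos hk, if_pos hk]
  by_cases h : k = i
  · have h' : k ≠ j := fun e => hij (h ▸ e)
    simp [h, hij]
  · by_cases h' : k = j
    · simp [h', Ne.symm hij]
    · simp [h, h']

theorem isPol_getD (P : ℕ) (a : List ℕ) (j i : ℕ) : IsPol P 1 (fun z => (upd a j z).getD i 0) := by
  simp only [getD_upd]
  split_ifs
  · exact isPol_id P
  · exact isPol_const P 1 _
  · exact isPol_const P 1 _

theorem isPol_lit {P : ℕ} (hP : 0 < P) (a : List ℕ) (j : ℕ) (l : Bool × ℕ) :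
    IsPol P 1 (fun z => lit P (upd a j z) l) := by
  unfold lit
  split_ifs
  · obtain ⟨g, g1, g2⟩ := isPol_getD P a j l.2
    exact ⟨g, g1, fun z => by rw [ZMod.natCast_mod]; exact g2 z⟩
  · exact (isPol_getD P a j l.2).cpl hP

theorem isPol_fold {P : ℕ} {α : Type} (F : α → ℕ → ℕ) (D : α → ℕ)
    (hF : ∀ x, IsPol P (D x) (F x)) (L : List α) : ∀ (f : ℕ → ℕ) (d : ℕ), IsPol P d f →
      IsPol P (d + (L.map D).sum) (fun z => L.foldl (fun v x => v * F x z % P) (f z)) := by
  induction L with
  | nil =>
    intro f d hf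
    simpa using hf
  | cons x L ih =>
    intro f d hf
    have h := ih (fun z => f z * F x z % P) (d + D x) (hf.mul (hF x))
    simp only [List.foldl_cons, List.map_cons, List.sum_cons]
    rw [← add_assoc]
    exact h

theorem isPol_cls {P : ℕ} (hP : 0 < P) (a : List ℕ) (j : ℕ) (c : List (Bool × ℕ)) :
    IsPol P c.length (fun z => cls P (upd a j z) c) := by
  unfold cls
  apply IsPol.cpl hP
  have h := isPol_fold (P := P) (fun (l : Bool × ℕ) z => cpl P (lit P (upd a j z) l)) (fun _ => 1)
    (fun l => (isPol_lit hP a j l).cpl hP) c (fun _ => 1 % P) 0 (isPol_const P 0 _)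
  simpa using h

theorem isPol_mat {P : ℕ} (hP : 0 < P) (C : List (List (Bool × ℕ))) (a : List ℕ) (j : ℕ) :
    IsPol P (lc C) (fun z => mat P C (upd a j z)) := by
  unfold mat lc
  have h := isPol_fold (P := P) (fun (c : List (Bool × ℕ)) z => cls P (upd a j z) c) List.length
    (fun c => isPol_cls hP a j c) C (fun _ => 1 % P) 0 (isPol_const P 0 _)
  simpa using h

/-- degree in the variable `j` -/
def deg (c : ℕ) : List Op → ℕ → ℕ
  | [], _ => c
  | o :: ops, j => if o.1 = 0 ∨ o.1 = 1 then (if o.2 = j then 0 else 2 * deg c ops j)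
      else if o.2 = j then 1 else deg c ops j

theorem isPol_val {P : ℕ} (hP : 0 < P) (C : List (List (Bool × ℕ))) (j : ℕ) (ops : List Op) :
    ∀ a : List ℕ, IsPol P (deg (lc C) ops j) (fun z => val P C ops (upd a j z)) := by
  induction ops with
  | nil => exact fun a => isPol_mat hP C a j
  | cons o ops ih =>
    intro a
    have e : (fun z => val P C (o :: ops) (upd a j z)) = fun z =>
      comb P o.1 ((upd a j z).getD o.2 0) (val P C ops (upd (upd a j z) o.2 0))
        (val P C ops (upd (upd a j z) o.2 1)) := rfl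
    rw [e]
    by_cases hj : o.2 = j
    · simp only [hj, upd_upd_same]
      unfold deg comb
      by_cases h0 : o.1 = 0
      · simp only [h0, true_or, if_true, hj]
        exact isPol_const P 0 _
      · by_cases h1 : o.1 = 1
        · simp only [h1, or_true, if_true, hj]
          exact isPol_const P 0 _
        · simp only [h0, h1, or_self, if_false, hj, if_true]
          exact ((isPol_getD P a j j).cpl hP).lin (isPol_const P 0 _) (isPol_getD P a j j)
            (isPol_const P 0 _) (by omega)
    · have e2 : ∀ z v, upd (upd a j z) o.2 v = upd (upd a o.2 v) j z := fun z v =>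
        upd_comm a o.2 j z v hj
      have e3 : ∀ z, (upd a j z).getD o.2 0 = a.getD o.2 0 := by
        intro z
        rw [getD_upd, if_neg hj]
        split_ifs with h
        · rfl
        · rw [List.getD_eq_default _ _ (by omega)]
      simp only [e2, e3]
      have i0 := ih (upd a o.2 0)
      have i1 := ih (upd a o.2 1)
      unfold deg comb
      by_cases h0 : o.1 = 0
      · simp only [h0, true_or, if_true, if_neg hj]
        exact (i0.mul i1).mono (by omega)
      · by_cases h1 : o.1 = 1
        · simp only [h1, or_true, if_true, if_neg hj, one_ne_zero, if_false]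
          have h := ((i0.cpl hP).mul (i1.cpl hP)).cpl hP
          obtain ⟨g, g1, g2⟩ := h
          refine ⟨g, g1.trans (by omega), fun z => ?_⟩
          rw [← g2, cast_cpl P hP, cast_cpl P hP, ZMod.natCast_mod]
        · simp only [h0, h1, or_self, if_false, if_neg hj]
          exact (isPol_const P 0 _).lin i0 (isPol_const P 0 _) i1 (by omega)

theorem deg_lin (c j : ℕ) (L : List Op) (s : List Op) (hs : ∀ o ∈ s, o.1 = 2) :
    deg c (s ++ L) j ≤ max 1 (deg c L j) := by
  induction s with
  | nil => simp
  | cons o s ih =>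
    have h := ih fun o' ho' => hs o' (List.mem_cons_of_mem _ ho')
    have ho := hs o List.mem_cons_self
    rw [List.cons_append]
    have e : deg c (o :: (s ++ L)) j = if o.2 = j then 1 else deg c (s ++ L) j := by
      rw [deg, ho, if_neg (by omega)]
    rw [e]
    split_ifs
    · exact le_max_left _ _
    · exact h

theorem deg_lin1 (c j : ℕ) (L : List Op) (s : List Op) (hs : ∀ o ∈ s, o.1 = 2)
    (hj : (2, j) ∈ s) : deg c (s ++ L) j ≤ 1 := by
  induction s with
  | nil => simp at hj
  | cons o s ih =>
    have ho := hs o List.mem_cons_self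
    rw [List.cons_append]
    unfold deg
    rw [ho, if_neg (by omega)]
    split_ifs with h
    · exact le_rfl
    · apply ih fun o' ho' => hs o' (List.mem_cons_of_mem _ ho')
      rcases List.mem_cons.1 hj with h' | h'
      · exact absurd (by rw [← h']) h
      · exact h'

theorem deg_blocks (c n j : ℕ) (hj : j < n) (k : ℕ → ℕ) (hk : ∀ i, k i = 0 ∨ k i = 1)
    (l : List ℕ) : ∀ t, deg c ((l.flatMap fun i => ((k i, i) :: (List.range n).map
      fun j => (2, j) : List Op)).drop t) j ≤ c + 2 := by
  induction l with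
  | nil =>
    intro t
    simp [deg]
  | cons i l ih =>
    intro t
    set L := l.flatMap fun i => ((k i, i) :: (List.range n).map fun j => (2, j) : List Op) with hL
    set s : List Op := (List.range n).map fun j => (2, j) with hs
    have hs2 : ∀ o ∈ s, o.1 = 2 := by
      intro o ho
      rw [hs, List.mem_map] at ho
      obtain ⟨x, _, rfl⟩ := ho
      rfl
    have hjs : (2, j) ∈ s := by
      rw [hs, List.mem_map]
      exact ⟨j, List.mem_range.2 hj, rfl⟩
    have e : ((i :: l).flatMap fun i => ((k i, i) :: (List.range n).map fun j => (2, j) : List Op)) =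
        (k i, i) :: (s ++ L) := by
      rw [List.flatMap_cons, List.cons_append]
    rw [e]
    rcases t with _ | t
    · rw [List.drop_zero]
      unfold deg
      rw [if_pos (hk i)]
      have := deg_lin1 c j L s hs2 hjs
      split_ifs
      · omega
      · omega
    · rw [List.drop_succ_cons, List.drop_append]
      have h1 := deg_lin c j (L.drop (t - s.length)) (s.drop t)
        (fun o ho => hs2 o (List.mem_of_mem_drop ho))
      have h2 := ih (t - s.length)
      omega

theorem taskDegree : TaskDegree := by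
  intro P qs C t a hP ht ha
  have hP0 := hP.pos
  set j := ((fullOps qs).getD t (0, 0)).2 with hj
  have hjn : j < qs.length := by
    rw [hj, List.getD_eq_getElem _ _ ht]
    have hm := List.getElem_mem ht
    unfold fullOps at hm
    rw [List.mem_flatMap] at hm
    obtain ⟨i, hi, hm⟩ := hm
    rw [List.mem_cons, List.mem_map] at hm
    rcases hm with hm | ⟨x, hx, hm⟩
    · unfold fullOps
      rw [hm]
      exact List.mem_range.1 hi
    · unfold fullOps
      rw [← hm]
      exact List.mem_range.1 hx
  have h1 := deg_blocks (lc C) qs.length j hjn (fun i => if qs.getD i false = true then 0 else 1)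
    (fun i => by split_ifs <;> simp) (List.range qs.length) (t + 1)
  obtain ⟨g, g1, g2⟩ := isPol_val hP0 C j ((fullOps qs).drop (t + 1)) a
  refine ⟨g, ?_, g2⟩
  have h2 : deg (lc C) ((fullOps qs).drop (t + 1)) j ≤ lc C + 2 := h1
  omega

end Pool.Agent.H87R3.Ps
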